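import Mathlib

/-! MP_21a058_co, the limit form with small polynomial constants: the choice of the constants. -/

namespace Pool.Agent.Lib.MP_21a058_co.Lim5

/-- All side conditions on the constants. `p` bounds the number of atoms, `l` is the number of
dyadic levels, `y = 4 l + 7`, `mo` bounds the number of rows of an edge, `A0 = 2 p`; the unit is
`H ≥ H0`, the graph has all cuts at least `2 M H`, small blocks have less than `H` edges; the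
start costs `E H` trees, `X H` trees are released in a round, `Th H` trees are given up for strong
pieces and the error of a round is `Th H`; cuts have at most `c` fractional edges. -/
structure Nums (n v l y p mo A0 M E X Th C9 c H0 : ℕ) : Prop where
  hn : 1 ≤ n
  hv : 2 ^ v ≤ 2 * n
  hl : l = 6 * v + 23
  hy : y = 4 * l + 7
  hp : p = 4 * n
  hmo : mo = (p * p + 1) * (l + 1)
  hA0 : A0 = 2 * p
  hM : M = 36864 * n ^ 5 * y
  hMl : M ≤ 2 ^ l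
  hE : n * E = M
  hX : 2 ≤ X
  hXM : 8 * n * X = M
  hTh : 1 ≤ Th
  hd : 3 * n * (Th + 1) ≤ X
  hnear : 2 * M + 3 * ((p + 1) * (X + 1)) < p * E
  heps : 2 * M * (y * A0) ≤ Th * Th
  hC9 : C9 = 2 * mo * M
  hc : c = 64 + 16 * C9
  hH0 : H0 = 48 * mo + 4 * c + 4

/-- The choice of the constants. -/
theorem exists_nums (n : ℕ) (hn : 1 ≤ n) :
    ∃ v l y p mo A0 M E X Th C9 c H0 : ℕ, Nums n v l y p mo A0 M E X Th C9 c H0 := by
  obtain ⟨v, hv1, hv2⟩ : ∃ v, n ≤ 2 ^ v ∧ 2 ^ v ≤ 2 * n := by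
    refine ⟨Nat.log 2 n + 1, (Nat.lt_pow_succ_log_self (by norm_num) n).le, ?_⟩
    have := Nat.pow_log_le_self 2 (show n ≠ 0 by omega)
    rw [pow_succ]
    omega
  obtain ⟨l, hl⟩ : ∃ l, l = 6 * v + 23 := ⟨_, rfl⟩
  obtain ⟨y, hy⟩ : ∃ y, y = 4 * l + 7 := ⟨_, rfl⟩
  have h3 : 1 ≤ n ^ 3 := Nat.one_le_pow _ _ hn
  have h4 : 1 ≤ n ^ 4 := Nat.one_le_pow _ _ hn
  have h5 : 1 ≤ n ^ 5 := Nat.one_le_pow _ _ hn
  have hy1 : 1 ≤ y := by omega
  have hz : 1 ≤ n ^ 4 * y := Nat.mul_pos h4 hy1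
  refine ⟨v, l, y, 4 * n, (4 * n * (4 * n) + 1) * (l + 1), 2 * (4 * n), 36864 * n ^ 5 * y,
    36864 * n ^ 4 * y, 4608 * n ^ 4 * y, 768 * n ^ 3 * y,
    2 * ((4 * n * (4 * n) + 1) * (l + 1)) * (36864 * n ^ 5 * y),
    64 + 16 * (2 * ((4 * n * (4 * n) + 1) * (l + 1)) * (36864 * n ^ 5 * y)),
    48 * ((4 * n * (4 * n) + 1) * (l + 1)) +
      4 * (64 + 16 * (2 * ((4 * n * (4 * n) + 1) * (l + 1)) * (36864 * n ^ 5 * y))) + 4, ?_⟩
  refine ⟨hn, hv2, hl, hy, rfl, rfl, rfl, rfl, ?_, ?_, ?_, ?_, ?_, ?_, ?_, ?_, rfl, rfl, rfl⟩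
  · -- `M ≤ 2 ^ l`
    have e1 : n ^ 5 ≤ 2 ^ (5 * v) := by
      have : n ^ 5 ≤ (2 ^ v) ^ 5 := Nat.pow_le_pow_left hv1 5
      rwa [← pow_mul, Nat.mul_comm v 5] at this
    have e2 : v + 1 ≤ 2 ^ v := Nat.lt_two_pow_self
    have e3 : y ≤ 2 ^ 7 * 2 ^ v := by
      have : 2 ^ 7 * (v + 1) ≤ 2 ^ 7 * 2 ^ v := Nat.mul_le_mul_left _ e2
      omega
    calc 36864 * n ^ 5 * y ≤ 2 ^ 16 * 2 ^ (5 * v) * (2 ^ 7 * 2 ^ v) :=
          Nat.mul_le_mul (Nat.mul_le_mul (by norm_num) e1) e3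
      _ = 2 ^ l := by
          rw [hl, show 6 * v + 23 = 16 + 5 * v + (7 + v) by ring, pow_add, pow_add, pow_add]
  · ring
  · have : 4608 * n ^ 4 * y = 4608 * (n ^ 4 * y) := by ring
    omega
  · ring
  · have : 768 * n ^ 3 * y = 768 * (n ^ 3 * y) := by ring
    have h6 : 1 ≤ n ^ 3 * y := Nat.mul_pos h3 hy1
    omega
  · have e1 : 3 * n * (768 * n ^ 3 * y + 1) = 2304 * (n ^ 4 * y) + 3 * n := by ring
    have e2 : n ≤ n ^ 4 * y :=
      (Nat.le_self_pow (by norm_num) n).trans (Nat.le_mul_of_pos_right _ hy1)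
    have e3 : 4608 * n ^ 4 * y = 4608 * (n ^ 4 * y) := by ring
    omega
  · have e1 : 2 * (36864 * n ^ 5 * y) + 3 * ((4 * n + 1) * (4608 * n ^ 4 * y + 1)) =
        129024 * (n ^ 5 * y) + 13824 * (n ^ 4 * y) + 12 * n + 3 := by ring
    have e2 : 4 * n * (36864 * n ^ 4 * y) = 147456 * (n ^ 5 * y) := by ring
    have e3 : n ^ 4 * y ≤ n ^ 5 * y :=
      Nat.mul_le_mul_right _ (Nat.pow_le_pow_right hn (by norm_num))
    have e5 : n ≤ n ^ 5 * y :=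
      (Nat.le_self_pow (by norm_num) n).trans (Nat.le_mul_of_pos_right _ hy1)
    have e6 : 1 ≤ n ^ 5 * y := Nat.mul_pos h5 hy1
    rw [e1, e2]
    omega
  · have e1 : 2 * (36864 * n ^ 5 * y) * (y * (2 * (4 * n))) = 589824 * (n ^ 6 * y ^ 2) := by ring
    have e2 : 768 * n ^ 3 * y * (768 * n ^ 3 * y) = 589824 * (n ^ 6 * y ^ 2) := by ring
    rw [e1, e2]

variable {n v l y p mo A0 M E X Th C9 c H0 : ℕ}

theorem Nums.M_pos (h : Nums n v l y p mo A0 M E X Th C9 c H0) : 1 ≤ M := by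
  rw [h.hM]
  have := h.hy
  exact Nat.mul_pos (Nat.mul_pos (by norm_num) (Nat.one_le_pow _ _ h.hn)) (by omega)

theorem Nums.nE (h : Nums n v l y p mo A0 M E X Th C9 c H0) : n * E ≤ M := le_of_eq h.hE

theorem Nums.nX (h : Nums n v l y p mo A0 M E X Th C9 c H0) : n * X ≤ M := by
  have h1 : n * X ≤ 8 * n * X := by
    refine Nat.mul_le_mul_right _ ?_
    omega
  exact h1.trans (le_of_eq h.hXM)

/-- the size of a small block -/
theorem Nums.mo_le (h : Nums n v l y p mo A0 M E X Th C9 c H0) {H : ℕ} (hH : H0 ≤ H) :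
    48 * mo ≤ H := by
  have := h.hH0
  omega

/-- the rows of blocks -/
theorem Nums.rows (h : Nums n v l y p mo A0 M E X Th C9 c H0) {H t : ℕ}
    (ht : t ≤ M * H) : 2 * mo * t ≤ C9 * H := by
  rw [h.hC9]
  calc 2 * mo * t ≤ 2 * mo * (M * H) := Nat.mul_le_mul_left _ ht
    _ = 2 * mo * M * H := by ring

/-- the levels -/
theorem Nums.lev (h : Nums n v l y p mo A0 M E X Th C9 c H0) {H t : ℕ}
    (ht : t ≤ M * H) : t ≤ H * 2 ^ l := by
  calc t ≤ M * H := ht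
    _ ≤ 2 ^ l * H := Nat.mul_le_mul_right _ h.hMl
    _ = H * 2 ^ l := Nat.mul_comm _ _

/-- the numbers of the selection -/
theorem Nums.sel_num (h : Nums n v l y p mo A0 M E X Th C9 c H0) {H t w : ℕ}
    (hw : t + Th * H ≤ w) :
    2 * p * Th * (2 * (2 * H) + H + 2 * H * (2 * l + 1)) ≤ y * A0 * (w - t) := by
  have h1 : Th * H ≤ w - t := by omega
  rw [← h.hA0]
  calc A0 * Th * (2 * (2 * H) + H + 2 * H * (2 * l + 1)) = (4 * l + 7) * A0 * (Th * H) := by ring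
    _ = y * A0 * (Th * H) := by rw [h.hy]
    _ ≤ _ := Nat.mul_le_mul_left _ h1

theorem cube_le (v : ℕ) : (v + 4) ^ 3 ≤ 64 * 2 ^ v := by
  induction v with
  | zero => norm_num
  | succ v ih =>
    have e1 : (v + 1 + 4) ^ 3 + (v ^ 3 + 9 * v ^ 2 + 21 * v + 3) = 2 * (v + 4) ^ 3 := by ring
    have e2 : 64 * 2 ^ (v + 1) = 2 * (64 * 2 ^ v) := by
      rw [pow_succ]
      ring
    omega

/-- The size of the constants. -/
theorem Nums.size (h : Nums n v l y p mo A0 M E X Th C9 c H0) :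
    2 * (M * H0) + 2 * M + 2 ≤ 2 ^ 75 * n ^ 13 := by
  have hn := h.hn
  have hM1 := h.M_pos
  have hl := h.hl
  have hy := h.hy
  have hv := h.hv
  obtain ⟨z, hz⟩ : ∃ z, z = v + 1 := ⟨_, rfl⟩
  have hz1 : 1 ≤ z := by omega
  have hyz : y ≤ 2 ^ 7 * z := by omega
  have hlz : l + 1 ≤ 2 ^ 5 * z := by omega
  have hz3 : z ^ 3 ≤ 2 ^ 7 * n := by
    have h1 := cube_le v
    have h2 : z ^ 3 ≤ (v + 4) ^ 3 := Nat.pow_le_pow_left (by omega) 3
    have h3 : 64 * 2 ^ v ≤ 64 * (2 * n) := Nat.mul_le_mul_left _ hv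
    omega
  have hM : M ≤ 2 ^ 23 * (n ^ 5 * z) := by
    rw [h.hM]
    calc 36864 * n ^ 5 * y ≤ 2 ^ 16 * n ^ 5 * (2 ^ 7 * z) :=
          Nat.mul_le_mul (Nat.mul_le_mul_right _ (by norm_num)) hyz
      _ = 2 ^ 23 * (n ^ 5 * z) := by ring
  have hmo : mo ≤ 2 ^ 10 * (n ^ 2 * z) := by
    have h1 : 1 ≤ n ^ 2 := Nat.one_le_pow _ _ hn
    rw [h.hmo, h.hp]
    have e : 4 * n * (4 * n) = 16 * n ^ 2 := by ring
    calc (4 * n * (4 * n) + 1) * (l + 1) ≤ 2 ^ 5 * n ^ 2 * (2 ^ 5 * z) :=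
          Nat.mul_le_mul (by omega) hlz
      _ = 2 ^ 10 * (n ^ 2 * z) := by ring
  have hmo1 : 1 ≤ mo := by
    rw [h.hmo]
    exact Nat.mul_pos (Nat.succ_pos _) (Nat.succ_pos _)
  have hH0 : H0 ≤ 512 * (mo * M) := by
    have e1 : H0 = 48 * mo + 260 + 128 * (mo * M) := by
      rw [h.hH0, h.hc, h.hC9]
      ring
    have e2 : mo ≤ mo * M := Nat.le_mul_of_pos_right _ hM1
    omega
  have hMH : M * H0 ≤ 2 ^ 72 * n ^ 13 := by
    calc M * H0 ≤ 2 ^ 23 * (n ^ 5 * z) *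
          (512 * (2 ^ 10 * (n ^ 2 * z) * (2 ^ 23 * (n ^ 5 * z)))) :=
          Nat.mul_le_mul hM (hH0.trans (Nat.mul_le_mul_left _ (Nat.mul_le_mul hmo hM)))
      _ = 2 ^ 65 * n ^ 12 * z ^ 3 := by ring
      _ ≤ 2 ^ 65 * n ^ 12 * (2 ^ 7 * n) := Nat.mul_le_mul_left _ hz3
      _ = 2 ^ 72 * n ^ 13 := by ring
  have h13 : 1 ≤ n ^ 13 := Nat.one_le_pow _ _ hn
  have hMM : M ≤ 2 ^ 72 * n ^ 13 := by
    have h0 : 1 ≤ H0 := by
      have := h.hH0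
      omega
    exact (Nat.le_mul_of_pos_right _ h0).trans hMH
  have e5 : 2 ^ 75 * n ^ 13 = 8 * (2 ^ 72 * n ^ 13) := by ring
  rw [e5]
  have h106 : 1 ≤ 2 ^ 72 * n ^ 13 := Nat.mul_pos (by norm_num) h13
  omega

end Pool.Agent.Lib.MP_21a058_co.Lim5
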