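import Mathlib

/-!
MP_21a058_co: dyadic blocks. A laminar family of finite sets is a family of intervals of one linear
order, and intervals are unions of few dyadic intervals, up to few elements.
-/

set_option autoImplicit false

namespace Pool.Agent.Lib.MP_21a058_co.Lim5

open Finset

/-- an interval is a union of at most `2 ℓ + length / 2 ^ ℓ` dyadic intervals of levels `≤ ℓ` -/
theorem dya (ℓ : ℕ) : ∀ u v : ℕ, u ≤ v → ∃ P : Finset (ℕ × ℕ),
    (∀ q ∈ P, q.1 ≤ ℓ ∧ u ≤ q.2 * 2 ^ q.1 ∧ (q.2 + 1) * 2 ^ q.1 ≤ v) ∧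
    (∀ q ∈ P, ∀ q' ∈ P, q ≠ q' → (q.2 + 1) * 2 ^ q.1 ≤ q'.2 * 2 ^ q'.1 ∨
      (q'.2 + 1) * 2 ^ q'.1 ≤ q.2 * 2 ^ q.1) ∧
    (∀ y, u ≤ y → y < v → ∃ q ∈ P, q.2 * 2 ^ q.1 ≤ y ∧ y < (q.2 + 1) * 2 ^ q.1) ∧
    P.card * 2 ^ ℓ ≤ 2 * ℓ * 2 ^ ℓ + (v - u) := by
  induction ℓ with
  | zero =>
    intro u v huv
    refine ⟨(Ico u v).image (fun y => ((0 : ℕ), y)), ?_, ?_, ?_, ?_⟩
    · intro q hq
      obtain ⟨y, hy, rfl⟩ := mem_image.1 hq
      rw [mem_Ico] at hy
      simp only [pow_zero, mul_one]
      exact ⟨le_rfl, hy.1, hy.2⟩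
    · intro q hq q' hq' hne
      obtain ⟨y, hy, rfl⟩ := mem_image.1 hq
      obtain ⟨y', hy', rfl⟩ := mem_image.1 hq'
      simp only [pow_zero, mul_one]
      have : y ≠ y' := fun h => hne (by rw [h])
      omega
    · intro y h1 h2
      refine ⟨(0, y), mem_image_of_mem _ (mem_Ico.2 ⟨h1, h2⟩), ?_⟩
      simp only [pow_zero, mul_one]
      exact ⟨le_rfl, Nat.lt_succ_self y⟩
    · have h1 : ((Ico u v).image (fun y => ((0 : ℕ), y))).card ≤ v - u := by
        refine card_image_le.trans ?_
        rw [Nat.card_Ico]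
      simp only [pow_zero, mul_one]
      omega
  | succ ℓ ih =>
    intro u v huv
    by_cases h : (u + 1) / 2 ≤ v / 2
    · obtain ⟨P, h1, h2, h3, h4⟩ := ih _ _ h
      have hpow : ∀ a i : ℕ, a * 2 ^ (i + 1) = 2 * (a * 2 ^ i) := fun a i => by
        rw [pow_succ]
        ring
      obtain ⟨A, hA⟩ : ∃ A : Finset (ℕ × ℕ), A = if u % 2 = 1 then {((0 : ℕ), u)} else ∅ :=
        ⟨_, rfl⟩
      obtain ⟨B, hB⟩ : ∃ B : Finset (ℕ × ℕ), B = if v % 2 = 1 then {((0 : ℕ), v - 1)} else ∅ :=
        ⟨_, rfl⟩
      have memA : ∀ q, q ∈ A → q = (0, u) ∧ u % 2 = 1 := by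
        intro q hq
        rw [hA] at hq
        split_ifs at hq with h5
        · exact ⟨mem_singleton.1 hq, h5⟩
        · exact absurd hq (notMem_empty q)
      have memB : ∀ q, q ∈ B → q = (0, v - 1) ∧ v % 2 = 1 := by
        intro q hq
        rw [hB] at hq
        split_ifs at hq with h5
        · exact ⟨mem_singleton.1 hq, h5⟩
        · exact absurd hq (notMem_empty q)
      have cA : A.card ≤ 1 := by
        rw [hA]
        split_ifs
        · exact le_of_eq (card_singleton _)
        · exact Nat.zero_le _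
      have cB : B.card ≤ 1 := by
        rw [hB]
        split_ifs
        · exact le_of_eq (card_singleton _)
        · exact Nat.zero_le _
      refine ⟨P.image (fun q => (q.1 + 1, q.2)) ∪ (A ∪ B), ?_, ?_, ?_, ?_⟩
      · intro q hq
        rcases mem_union.1 hq with hq | hq
        · obtain ⟨q0, hq0, rfl⟩ := mem_image.1 hq
          obtain ⟨k1, k2, k3⟩ := h1 q0 hq0
          show q0.1 + 1 ≤ ℓ + 1 ∧ u ≤ q0.2 * 2 ^ (q0.1 + 1) ∧ (q0.2 + 1) * 2 ^ (q0.1 + 1) ≤ v
          rw [hpow, hpow]
          exact ⟨by omega, by omega, by omega⟩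
        · rcases mem_union.1 hq with hq | hq
          · obtain ⟨rfl, h5⟩ := memA q hq
            simp only [pow_zero, mul_one]
            exact ⟨by omega, by omega, by omega⟩
          · obtain ⟨rfl, h5⟩ := memB q hq
            simp only [pow_zero, mul_one]
            exact ⟨by omega, by omega, by omega⟩
      · have kAP : ∀ q ∈ P, u % 2 = 1 → u + 1 ≤ q.2 * 2 ^ (q.1 + 1) := by
          intro q hq h5
          have := (h1 q hq).2.1
          rw [hpow]
          omega
        have kBP : ∀ q ∈ P, v % 2 = 1 → (q.2 + 1) * 2 ^ (q.1 + 1) ≤ v - 1 := by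
          intro q hq h5
          have := (h1 q hq).2.2
          rw [hpow]
          omega
        intro q hq q' hq' hne
        rcases mem_union.1 hq with hq | hq <;> rcases mem_union.1 hq' with hq' | hq'
        · obtain ⟨q0, hq0, rfl⟩ := mem_image.1 hq
          obtain ⟨q1, hq1, rfl⟩ := mem_image.1 hq'
          have h5 := h2 q0 hq0 q1 hq1 (fun h => hne (by rw [h]))
          show (q0.2 + 1) * 2 ^ (q0.1 + 1) ≤ q1.2 * 2 ^ (q1.1 + 1) ∨
            (q1.2 + 1) * 2 ^ (q1.1 + 1) ≤ q0.2 * 2 ^ (q0.1 + 1)
          rw [hpow, hpow, hpow, hpow]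
          omega
        · obtain ⟨q0, hq0, rfl⟩ := mem_image.1 hq
          rcases mem_union.1 hq' with hq' | hq'
          · obtain ⟨rfl, h5⟩ := memA q' hq'
            right
            have := kAP q0 hq0 h5
            simp only [pow_zero, mul_one]
            exact this
          · obtain ⟨rfl, h5⟩ := memB q' hq'
            left
            have := kBP q0 hq0 h5
            simp only [pow_zero, mul_one]
            exact this
        · obtain ⟨q0, hq0, rfl⟩ := mem_image.1 hq'
          rcases mem_union.1 hq with hq | hq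
          · obtain ⟨rfl, h5⟩ := memA q hq
            left
            have := kAP q0 hq0 h5
            simp only [pow_zero, mul_one]
            exact this
          · obtain ⟨rfl, h5⟩ := memB q hq
            right
            have := kBP q0 hq0 h5
            simp only [pow_zero, mul_one]
            exact this
        · rcases mem_union.1 hq with hq | hq <;> rcases mem_union.1 hq' with hq' | hq'
          · exact absurd ((memA q hq).1.trans (memA q' hq').1.symm) hne
          · obtain ⟨rfl, h5⟩ := memA q hq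
            obtain ⟨rfl, h6⟩ := memB q' hq'
            left
            simp only [pow_zero, mul_one]
            omega
          · obtain ⟨rfl, h5⟩ := memB q hq
            obtain ⟨rfl, h6⟩ := memA q' hq'
            right
            simp only [pow_zero, mul_one]
            omega
          · exact absurd ((memB q hq).1.trans (memB q' hq').1.symm) hne
      · intro y k1 k2
        by_cases h5 : u % 2 = 1 ∧ y = u
        · refine ⟨(0, u), mem_union_right _ (mem_union_left _ ?_), ?_⟩
          · rw [hA, if_pos h5.1]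
            exact mem_singleton_self _
          · simp only [pow_zero, mul_one]
            omega
        · by_cases h6 : v % 2 = 1 ∧ y = v - 1
          · refine ⟨(0, v - 1), mem_union_right _ (mem_union_right _ ?_), ?_⟩
            · rw [hB, if_pos h6.1]
              exact mem_singleton_self _
            · simp only [pow_zero, mul_one]
              omega
          · obtain ⟨q, hq, k3, k4⟩ := h3 (y / 2) (by omega) (by omega)
            refine ⟨(q.1 + 1, q.2), mem_union_left _ (mem_image_of_mem _ hq), ?_⟩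
            show q.2 * 2 ^ (q.1 + 1) ≤ y ∧ y < (q.2 + 1) * 2 ^ (q.1 + 1)
            rw [hpow, hpow]
            omega
      · have c1 : (P.image (fun q => (q.1 + 1, q.2)) ∪ (A ∪ B)).card ≤ P.card + 2 := by
          have e1 := card_union_le (P.image (fun q => (q.1 + 1, q.2))) (A ∪ B)
          have e2 := card_union_le A B
          have e3 : (P.image (fun q => (q.1 + 1, q.2))).card ≤ P.card := card_image_le
          omega
        have c2 := Nat.mul_le_mul_right (2 ^ (ℓ + 1)) c1
        have e1 : (P.card + 2) * 2 ^ (ℓ + 1) = 2 * (P.card * 2 ^ ℓ) + 4 * 2 ^ ℓ := by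
          rw [pow_succ]
          ring
        have e2 : 2 * (ℓ + 1) * 2 ^ (ℓ + 1) = 2 * (2 * ℓ * 2 ^ ℓ) + 4 * 2 ^ ℓ := by
          rw [pow_succ]
          ring
        rw [e1] at c2
        rw [e2]
        omega
    · have huv' : u = v := by omega
      subst huv'
      refine ⟨∅, fun q hq => absurd hq (notMem_empty q), fun q hq => absurd hq (notMem_empty q),
        fun y h1 h2 => absurd h1 (by omega), ?_⟩
      rw [card_empty, Nat.zero_mul]
      exact Nat.zero_le _

/-- a laminar family consists of intervals of one linear order -/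
theorem lam_order {α : Type} [DecidableEq α] [Fintype α] (m : ℕ) : ∀ S : Finset (Finset α),
    S.card = m → (∀ X ∈ S, ∀ Y ∈ S, X ⊆ Y ∨ Y ⊆ X ∨ Disjoint X Y) →
    ∃ f : α → ℕ, Function.Injective f ∧
      ∀ X ∈ S, ∀ x ∈ X, ∀ z ∈ X, ∀ y, f x ≤ f y → f y ≤ f z → y ∈ X := by
  induction m with
  | zero =>
    intro S hS _
    rw [card_eq_zero] at hS
    subst hS
    exact ⟨fun x => (Fintype.equivFin α x).val, fun x y hxy =>
      (Fintype.equivFin α).injective (Fin.ext hxy), fun X hX => absurd hX (notMem_empty X)⟩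
  | succ m ih =>
    intro S hS hlam
    have hne : S.Nonempty := by
      rw [← card_pos]
      omega
    obtain ⟨X0, hX0, hmax⟩ := exists_max_image S card hne
    obtain ⟨f, hf, hint⟩ := ih (S.erase X0) (by rw [card_erase_of_mem hX0]; omega)
      (fun X hX Y hY => hlam X (mem_of_mem_erase hX) Y (mem_of_mem_erase hY))
    obtain ⟨Nb, hNb⟩ : ∃ Nb, Nb = ∑ x, f x + 1 := ⟨_, rfl⟩
    have hlt : ∀ x, f x < Nb := by
      intro x
      have := single_le_sum (f := f) (fun i _ => Nat.zero_le (f i)) (mem_univ x)
      omega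
    have hin : ∀ x, x ∈ X0 → (if x ∈ X0 then f x else f x + Nb) = f x := fun x hx => if_pos hx
    have hout : ∀ x, x ∉ X0 → (if x ∈ X0 then f x else f x + Nb) = f x + Nb := fun x hx =>
      if_neg hx
    refine ⟨fun x => if x ∈ X0 then f x else f x + Nb, ?_, ?_⟩
    · intro x y hxy
      have hxy' : (if x ∈ X0 then f x else f x + Nb) = if y ∈ X0 then f y else f y + Nb := hxy
      have h1 := hlt x
      have h2 := hlt y
      by_cases hx : x ∈ X0 <;> by_cases hy : y ∈ X0
      · rw [if_pos hx, if_pos hy] at hxy'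
        exact hf hxy'
      · rw [if_pos hx, if_neg hy] at hxy'
        omega
      · rw [if_neg hx, if_pos hy] at hxy'
        omega
      · rw [if_neg hx, if_neg hy] at hxy'
        exact hf (by omega)
    · intro X hX x hx z hz y hxy hyz
      have hxy' : (if x ∈ X0 then f x else f x + Nb) ≤ if y ∈ X0 then f y else f y + Nb := hxy
      have hyz' : (if y ∈ X0 then f y else f y + Nb) ≤ if z ∈ X0 then f z else f z + Nb := hyz
      have h1 := hlt x
      have h2 := hlt y
      have h3 := hlt z
      by_cases hXX : X = X0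
      · subst hXX
        rw [if_pos hz] at hyz'
        by_contra hy
        rw [if_neg hy] at hyz'
        omega
      · have hXe : X ∈ S.erase X0 := mem_erase.2 ⟨hXX, hX⟩
        rcases hlam X hX X0 hX0 with h | h | h
        · rw [if_pos (h hz)] at hyz'
          rw [if_pos (h hx)] at hxy'
          have hy : y ∈ X0 := by
            by_contra hy
            rw [if_neg hy] at hyz'
            omega
          rw [if_pos hy] at hxy' hyz'
          exact hint X hXe x hx z hz y hxy' hyz'
        · exact absurd (eq_of_subset_of_card_le h (hmax X hX)).symm hXX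
        · have hx0 : x ∉ X0 := disjoint_left.1 h hx
          have hz0 : z ∉ X0 := disjoint_left.1 h hz
          rw [if_neg hx0] at hxy'
          rw [if_neg hz0] at hyz'
          have hy : y ∉ X0 := by
            intro hy
            rw [if_pos hy] at hxy'
            omega
          rw [if_neg hy] at hxy' hyz'
          exact hint X hXe x hx z hz y (by omega) (by omega)

/-- the same with a numbering `0, …, n - 1` -/
theorem lam_rank {α : Type} [DecidableEq α] [Fintype α] (S : Finset (Finset α))
    (hlam : ∀ X ∈ S, ∀ Y ∈ S, X ⊆ Y ∨ Y ⊆ X ∨ Disjoint X Y) :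
    ∃ g : α → ℕ, Function.Injective g ∧ (∀ x, g x < Fintype.card α) ∧
      (∀ i, i < Fintype.card α → ∃ x, g x = i) ∧
      ∀ X ∈ S, ∀ x ∈ X, ∀ z ∈ X, ∀ y, g x ≤ g y → g y ≤ g z → y ∈ X := by
  obtain ⟨f, hf, hint⟩ := lam_order S.card S rfl hlam
  obtain ⟨g, hg⟩ : ∃ g : α → ℕ, g = fun y => (univ.filter fun z => f z < f y).card := ⟨_, rfl⟩
  have hmono : ∀ x y, f x < f y → g x < g y := by
    intro x y hxy
    rw [hg]
    refine card_lt_card ⟨fun z hz => ?_, fun h => ?_⟩
    · exact mem_filter.2 ⟨mem_univ _, (mem_filter.1 hz).2.trans hxy⟩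
    · have := mem_filter.1 (h (mem_filter.2 ⟨mem_univ x, hxy⟩))
      exact lt_irrefl _ this.2
  have hle : ∀ x y, g x ≤ g y → f x ≤ f y := by
    intro x y h
    by_contra hh
    have := hmono y x (by omega)
    omega
  have hinj : Function.Injective g := by
    intro x y hxy
    exact hf (le_antisymm (hle x y hxy.le) (hle y x hxy.ge))
  have hlt : ∀ x, g x < Fintype.card α := by
    intro x
    rw [hg, ← card_univ]
    refine card_lt_card ⟨subset_univ _, fun h => ?_⟩
    have := (mem_filter.1 (h (mem_univ x))).2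
    exact lt_irrefl _ this
  refine ⟨g, hinj, hlt, ?_, fun X hX x hx z hz y h1 h2 =>
    hint X hX x hx z hz y (hle _ _ h1) (hle _ _ h2)⟩
  intro i hi
  have h1 : univ.image g = range (Fintype.card α) := by
    refine eq_of_subset_of_card_le ?_ ?_
    · intro j hj
      obtain ⟨x, -, rfl⟩ := mem_image.1 hj
      exact mem_range.2 (hlt x)
    · rw [card_range, card_image_of_injective _ hinj, card_univ]
  have h2 : i ∈ univ.image g := by
    rw [h1]
    exact mem_range.2 hi
  obtain ⟨x, -, hx⟩ := mem_image.1 h2
  exact ⟨x, hx⟩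

end Pool.Agent.Lib.MP_21a058_co.Lim5
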