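import Pool.Agent.Lib.MP_21a058_co.Lim.Rate
import Pool.Agent.Lib.MP_21a058_co.Lim5.SelAll
import Pool.Agent.Lib.MP_21a058_co.Lim5.RoundsAll

/-! MP_21a058_co, the limit form with a polynomial constant, and the resulting power saving. -/

set_option linter.unusedSectionVars false
set_option linter.unusedVariables false

namespace Pool.Agent.Lib.MP_21a058_co.Lim5

open Finset
open scoped Classical
open Pool.Agent.Lib.MP_21a058_co.Lim (LimAll arrow_lim_num)

/-- **The limit form with a polynomial constant:** if `k'` suffices for the selected parts and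
`(q + 1) (2 (sum of the other parts) + k') + 2 ^ 75 6 ^ 13 q ^ 14 ≤ q k`, then `k` suffices for
all parts. -/
theorem arrow_lim_poly (q : ℕ) (hq : 1 ≤ q) (r : ℕ) (ks : Fin r → ℕ) (m : ℕ) (g : Fin m → Fin r)
    (hg : Function.Injective g) (k k' : ℕ)
    (hA : Pool.Agent.Lib.MP_21a058_co.Arrow k' (fun x => ks (g x)))
    (h : (q + 1) * (2 * (∑ i ∈ univ \ univ.image g, ks i) + k') + 2 ^ 75 * 6 ^ 13 * q ^ 14 ≤
      q * k) :
    Pool.Agent.Lib.MP_21a058_co.Arrow k ks := by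
  obtain ⟨v, l, y, p, mo, A0, M, E, X, Th, C9, c, H0, hN⟩ := exists_nums (3 * (q + 1)) (by omega)
  have hs := hN.size
  have hL : LimAll M H0 E X (Th + 1) :=
    limAll hN (c' := c) (by have := hN.hH0; omega) fun H hH => selAll hN H hH
  refine arrow_lim_num hq hN.M_pos (by have := hN.hX; omega) hN.nE hN.nX hN.hd hL r ks m g hg
    k k' hA (le_trans (Nat.add_le_add_left ?_ _) h)
  calc q * (2 * (M * H0) + 2 * M + 2) ≤ q * (2 ^ 75 * (3 * (q + 1)) ^ 13) :=
        Nat.mul_le_mul_left _ hs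
    _ ≤ q * (2 ^ 75 * (6 * q) ^ 13) :=
        Nat.mul_le_mul_left _ (Nat.mul_le_mul_left _ (Nat.pow_le_pow_left (by omega) _))
    _ = 2 ^ 75 * 6 ^ 13 * q ^ 14 := by
        rw [Nat.mul_pow, pow_succ q 13]
        ring

/-- **Power saving:** there is an absolute constant `c` such that `k` suffices for all parts if
`k'` suffices for the selected parts and `x + c q ^ 13 ≤ k` for some `q ≥ 1` with `x ≤ q ^ 14`,
`x = 2 (sum of the other parts) + k'`. -/
theorem arrow_pow : ∃ c : ℕ, ∀ (r : ℕ) (ks : Fin r → ℕ) (m : ℕ) (g : Fin m → Fin r),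
    Function.Injective g → ∀ k k' x q : ℕ,
    Pool.Agent.Lib.MP_21a058_co.Arrow k' (fun i => ks (g i)) →
    x = 2 * (∑ i ∈ univ \ univ.image g, ks i) + k' →
    1 ≤ q → x ≤ q ^ 14 → x + c * q ^ 13 ≤ k →
    Pool.Agent.Lib.MP_21a058_co.Arrow k ks := by
  obtain ⟨c0, hc0⟩ : ∃ c0 : ℕ, c0 = 2 ^ 75 * 6 ^ 13 := ⟨_, rfl⟩
  refine ⟨c0 + 1, fun r ks m g hg k k' x q hA hx hq hxq h => ?_⟩
  refine arrow_lim_poly q hq r ks m g hg k k' hA ?_
  rw [← hx, ← hc0]
  have e1 : q * (x + (c0 + 1) * q ^ 13) ≤ q * k := Nat.mul_le_mul_left _ h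
  have e2 : q * (x + (c0 + 1) * q ^ 13) = q * x + c0 * q ^ 14 + q ^ 14 := by
    rw [pow_succ q 13]
    ring
  have e3 : (q + 1) * x = q * x + x := by ring
  omega

end Pool.Agent.Lib.MP_21a058_co.Lim5
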