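import Pool.Agent.Lib.MP_21a058_co.Lim.Chunk
import Pool.Agent.Lib.MP_21a058_co.Lim5.Dya

/-!
MP_21a058_co: the rows of edges between the pieces, with dyadic blocks: every edge is in at most
`mo (ℓ + 1)` rows, and the edges inside a set between its pieces are covered by few rows.
-/

set_option autoImplicit false
set_option linter.unusedSectionVars false

namespace Pool.Agent.Lib.MP_21a058_co.Lim5

open Finset
open Pool.Agent.Lib.MP_21a058_co.P
open Pool.Agent.Lib.MP_21a058_co.Lim (loc btw mem_loc mem_btw exists_loc loc_unique lin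
  card_regions mem_lin lin_lam loc_con)

/-- **chunk lemma with dyadic blocks** -/
theorem chunk {α : Type} [DecidableEq α] [Fintype α] {N : ℕ} (hN : 0 < N) (ℓ : ℕ)
    (S : Finset (Finset α)) (hlam : ∀ X ∈ S, ∀ Y ∈ S, X ⊆ Y ∨ Y ⊆ X ∨ Disjoint X Y) :
    ∃ D : Finset (Finset α), (∀ B ∈ D, ∃ X ∈ S, B ⊆ X) ∧
      (∀ x, (D.filter fun B => x ∈ B).card ≤ ℓ + 1) ∧
      ∀ X ∈ S, ∃ Bs ⊆ D, (∀ B ∈ Bs, B ⊆ X) ∧
        (∀ B ∈ Bs, ∀ B' ∈ Bs, B ≠ B' → Disjoint B B') ∧
        (X \ Bs.biUnion id).card ≤ 2 * N ∧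
        Bs.card * (N * 2 ^ ℓ) ≤ 2 * ℓ * (N * 2 ^ ℓ) + X.card := by
  obtain ⟨g, hinj, hlt, hsur, hint⟩ := lam_rank S hlam
  obtain ⟨blk, hblk⟩ : ∃ blk : ℕ → ℕ → Finset α, blk = fun i a =>
      univ.filter fun x => a * (N * 2 ^ i) ≤ g x ∧ g x < (a + 1) * (N * 2 ^ i) := ⟨_, rfl⟩
  have mem_blk : ∀ i a x, x ∈ blk i a ↔ a * (N * 2 ^ i) ≤ g x ∧ g x < (a + 1) * (N * 2 ^ i) := by
    intro i a x
    rw [hblk, mem_filter]
    exact ⟨fun h => h.2, fun h => ⟨mem_univ _, h⟩⟩
  have hpos : ∀ i, 0 < N * 2 ^ i := fun i => Nat.mul_pos hN (Nat.pos_of_ne_zero (by positivity))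
  refine ⟨((range (ℓ + 1) ×ˢ range (Fintype.card α)).image fun q => blk q.1 q.2).filter
    fun B => ∃ X ∈ S, B ⊆ X, fun B hB => (mem_filter.1 hB).2, ?_, ?_⟩
  · intro x
    have h1 : ((((range (ℓ + 1) ×ˢ range (Fintype.card α)).image fun q => blk q.1 q.2).filter
        fun B => ∃ X ∈ S, B ⊆ X).filter fun B => x ∈ B) ⊆
        (range (ℓ + 1)).image fun i => blk i (g x / (N * 2 ^ i)) := by
      intro B hB
      obtain ⟨h2, h3⟩ := mem_filter.1 hB
      obtain ⟨q, hq, rfl⟩ := mem_image.1 (mem_filter.1 h2).1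
      refine mem_image.2 ⟨q.1, (mem_product.1 hq).1, ?_⟩
      have h4 := (mem_blk q.1 q.2 x).1 h3
      have h5 : g x / (N * 2 ^ q.1) = q.2 := Nat.div_eq_of_lt_le h4.1 h4.2
      show blk q.1 (g x / (N * 2 ^ q.1)) = blk q.1 q.2
      rw [h5]
    calc _ ≤ _ := card_le_card h1
      _ ≤ (range (ℓ + 1)).card := card_image_le
      _ = ℓ + 1 := card_range _
  · intro X hX
    rcases X.eq_empty_or_nonempty with hXe | hXne
    · refine ⟨∅, empty_subset _, fun B hB => absurd hB (notMem_empty B),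
        fun B hB => absurd hB (notMem_empty B), ?_, ?_⟩
      · rw [hXe, empty_sdiff, card_empty]
        exact Nat.zero_le _
      · rw [card_empty, Nat.zero_mul]
        exact Nat.zero_le _
    · obtain ⟨x0, hx0, hmin⟩ := exists_min_image X g hXne
      obtain ⟨x1, hx1, hmax⟩ := exists_max_image X g hXne
      obtain ⟨s, hs⟩ : ∃ s, s = g x0 := ⟨_, rfl⟩
      obtain ⟨e, he⟩ : ∃ e, e = g x1 + 1 := ⟨_, rfl⟩
      have hse : s < e := by
        have := hmin x1 hx1
        omega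
      have memX : ∀ y, y ∈ X ↔ s ≤ g y ∧ g y < e := by
        intro y
        constructor
        · intro hy
          have h1 := hmin y hy
          have h2 := hmax y hy
          omega
        · rintro ⟨h1, h2⟩
          exact hint X hX x0 hx0 x1 hx1 y (by omega) (by omega)
      have hcard : e - s ≤ X.card := by
        have h1 : Ico s e ⊆ X.image g := by
          intro i hi
          rw [mem_Ico] at hi
          have h2 := hlt x1
          obtain ⟨y, hy⟩ := hsur i (by omega)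
          exact mem_image.2 ⟨y, (memX y).2 (by rw [hy]; exact hi), hy⟩
        have h2 := card_le_card h1
        rw [Nat.card_Ico] at h2
        exact h2.trans card_image_le
      obtain ⟨u, hu⟩ : ∃ u, u = (s + N - 1) / N := ⟨_, rfl⟩
      obtain ⟨v, hv⟩ : ∃ v, v = e / N := ⟨_, rfl⟩
      have hu1 : s ≤ u * N := by
        have h1 := Nat.lt_div_mul_add (a := s + N - 1) hN
        rw [← hu] at h1
        omega
      have hu2 : u * N < s + N := by
        have h1 := Nat.div_mul_le_self (s + N - 1) N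
        rw [← hu] at h1
        omega
      have hv1 : v * N ≤ e := by
        rw [hv]
        exact Nat.div_mul_le_self _ _
      have hv2 : e < v * N + N := by
        rw [hv]
        exact Nat.lt_div_mul_add hN
      by_cases huv : u ≤ v
      · obtain ⟨P, p1, p2, p3, p4⟩ := dya ℓ u v huv
        have hsc : ∀ a i : ℕ, a * (N * 2 ^ i) = a * 2 ^ i * N := fun a i => by ring
        have low : ∀ q ∈ P, u * N ≤ q.2 * (N * 2 ^ q.1) := by
          intro q hq
          rw [hsc]
          exact Nat.mul_le_mul_right _ (p1 q hq).2.1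
        have upp : ∀ q ∈ P, (q.2 + 1) * (N * 2 ^ q.1) ≤ v * N := by
          intro q hq
          rw [hsc]
          exact Nat.mul_le_mul_right _ (p1 q hq).2.2
        have subX : ∀ q ∈ P, blk q.1 q.2 ⊆ X := by
          intro q hq x hx
          have h1 := (mem_blk _ _ _).1 hx
          have h2 := low q hq
          have h3 := upp q hq
          exact (memX x).2 (by omega)
        refine ⟨P.image fun q => blk q.1 q.2, ?_, ?_, ?_, ?_, ?_⟩
        · intro B hB
          obtain ⟨q, hq, rfl⟩ := mem_image.1 hB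
          refine mem_filter.2 ⟨mem_image.2 ⟨q, mem_product.2 ⟨?_, ?_⟩, rfl⟩, X, hX, subX q hq⟩
          · exact mem_range.2 (Nat.lt_succ_of_le (p1 q hq).1)
          · rw [mem_range]
            have h1 := upp q hq
            have h2 := hlt x1
            have h3 : q.2 + 1 ≤ (q.2 + 1) * (N * 2 ^ q.1) := Nat.le_mul_of_pos_right _ (hpos _)
            omega
        · intro B hB
          obtain ⟨q, hq, rfl⟩ := mem_image.1 hB
          exact subX q hq
        · intro B hB B' hB' hne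
          obtain ⟨q, hq, rfl⟩ := mem_image.1 hB
          obtain ⟨q', hq', rfl⟩ := mem_image.1 hB'
          have hne' : q ≠ q' := fun h => hne (by rw [h])
          rw [disjoint_left]
          intro x hx hx'
          have h1 := (mem_blk _ _ _).1 hx
          have h2 := (mem_blk _ _ _).1 hx'
          rw [hsc, hsc] at h1 h2
          rcases p2 q hq q' hq' hne' with h3 | h3
          · have := Nat.mul_le_mul_right N h3
            omega
          · have := Nat.mul_le_mul_right N h3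
            omega
        · have h1 : (X \ (P.image fun q => blk q.1 q.2).biUnion id).image g ⊆
              Ico s (u * N) ∪ Ico (v * N) e := by
            intro i hi
            obtain ⟨y, hy, rfl⟩ := mem_image.1 hi
            obtain ⟨hy1, hy2⟩ := mem_sdiff.1 hy
            have h2 := (memX y).1 hy1
            rw [mem_union, mem_Ico, mem_Ico]
            by_contra hcon
            have h3 : u * N ≤ g y ∧ g y < v * N := by omega
            have h4 : u ≤ g y / N := (Nat.le_div_iff_mul_le hN).2 h3.1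
            have h5 : g y / N < v := (Nat.div_lt_iff_lt_mul hN).2 h3.2
            obtain ⟨q, hq, h6, h7⟩ := p3 (g y / N) h4 h5
            refine hy2 (mem_biUnion.2 ⟨blk q.1 q.2, mem_image_of_mem _ hq, ?_⟩)
            refine (mem_blk _ _ _).2 ⟨?_, ?_⟩
            · rw [hsc]
              exact (Nat.le_div_iff_mul_le hN).1 h6
            · rw [hsc]
              exact (Nat.div_lt_iff_lt_mul hN).1 h7
          have h2 := card_le_card h1
          rw [card_image_of_injective _ hinj] at h2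
          have h3 := card_union_le (Ico s (u * N)) (Ico (v * N) e)
          rw [Nat.card_Ico, Nat.card_Ico] at h3
          omega
        · have h1 : (P.image fun q => blk q.1 q.2).card ≤ P.card := card_image_le
          have h2 := Nat.mul_le_mul_right (N * 2 ^ ℓ) h1
          have h3 := Nat.mul_le_mul_right N p4
          have e1 : P.card * (N * 2 ^ ℓ) = P.card * 2 ^ ℓ * N := by ring
          have e2 : (2 * ℓ * 2 ^ ℓ + (v - u)) * N = 2 * ℓ * (N * 2 ^ ℓ) + (v - u) * N := by ring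
          have e3 : (v - u) * N = v * N - u * N := Nat.sub_mul v u N
          rw [e2, e3] at h3
          omega
      · refine ⟨∅, empty_subset _, fun B hB => absurd hB (notMem_empty B),
          fun B hB => absurd hB (notMem_empty B), ?_, ?_⟩
        · have h1 : (v + 1) * N ≤ u * N := Nat.mul_le_mul_right _ (by omega)
          have h2 : (v + 1) * N = v * N + N := by ring
          have h3 : X.image g ⊆ Ico s e := by
            intro i hi
            obtain ⟨y, hy, rfl⟩ := mem_image.1 hi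
            exact mem_Ico.2 ((memX y).1 hy)
          have h4 := card_le_card h3
          rw [card_image_of_injective _ hinj, Nat.card_Ico] at h4
          rw [biUnion_empty, sdiff_empty]
          omega
        · rw [card_empty, Nat.zero_mul]
          exact Nat.zero_le _

variable {V E : Type} [Fintype V] [DecidableEq V] [Fintype E] [DecidableEq E] (a b : E → V)
variable {L : Finset (Finset V)}

/-- **(C2)**: the rows of edges between the pieces -/
theorem exists_rows (hlam : ∀ X ∈ L, ∀ Y ∈ L, X ⊆ Y ∨ Y ⊆ X ∨ Disjoint X Y) (B : Finset E)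
    {mo N : ℕ} (ℓ : ℕ) (hN : 0 < N) (M : Finset (Finset V)) (col : Finset V → Fin mo)
    (hcol : ∀ X ∈ M, ∀ Y ∈ M, col X = col Y → X ⊆ Y ∨ Y ⊆ X ∨ Disjoint X Y) :
    ∃ R : Finset (Finset E), (∀ β ∈ R, β ⊆ B) ∧
      (∀ W ∈ L, ∀ β ∈ R, β ⊆ ins a b W ∨ Disjoint β (ins a b W)) ∧
      (∀ e, (R.filter fun β => e ∈ β).card ≤ mo * (ℓ + 1)) ∧
      ∀ Y ∈ M, ∀ Q ⊆ L, (∀ A ∈ Q, ∀ A' ∈ Q, A ≠ A' → Disjoint A A') → Q.biUnion id = Y →
        ∃ Bs ⊆ R, (∀ β ∈ Bs, ∀ γ ∈ Bs, β ≠ γ → Disjoint β γ) ∧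
          (∀ β ∈ Bs, β ⊆ B ∩ ins a b Y ∧ ∀ Z ∈ Q, Disjoint β (ins a b Z)) ∧
          ((B ∩ ins a b Y) \ (Q.biUnion (ins a b) ∪ Bs.biUnion id)).card ≤ 2 * N * Q.card ∧
          Bs.card * (N * 2 ^ ℓ) ≤ 2 * ℓ * (N * 2 ^ ℓ) * Q.card + (btw a b B Y Q).card := by
  classical
  -- the laminar family of one colour
  obtain ⟨S, hS⟩ : ∃ S : Fin mo → Finset (Finset E), S = fun j =>
      ((insert univ L) ×ˢ (M.filter fun Y => col Y = j)).image fun q => lin a b L B q.1 q.2 :=
    ⟨_, rfl⟩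
  have memS : ∀ j X, X ∈ S j ↔ ∃ U ∈ insert univ L, ∃ Y ∈ M, col Y = j ∧
      lin a b L B U Y = X := by
    intro j X
    rw [hS]
    constructor
    · intro h
      obtain ⟨q, hq, rfl⟩ := mem_image.1 h
      obtain ⟨h1, h2⟩ := mem_product.1 hq
      obtain ⟨h3, h4⟩ := mem_filter.1 h2
      exact ⟨q.1, h1, q.2, h3, h4, rfl⟩
    · rintro ⟨U, hU, Y, hY, hj, rfl⟩
      exact mem_image.2 ⟨(U, Y), mem_product.2 ⟨hU, mem_filter.2 ⟨hY, hj⟩⟩, rfl⟩
  have hSlam : ∀ j, ∀ X ∈ S j, ∀ X' ∈ S j, X ⊆ X' ∨ X' ⊆ X ∨ Disjoint X X' := by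
    intro j X hX X' hX'
    obtain ⟨U, hU, Y, hY, hj, rfl⟩ := (memS j X).1 hX
    obtain ⟨U', hU', Y', hY', hj', rfl⟩ := (memS j X').1 hX'
    exact lin_lam (M := M.filter fun Y => col Y = j) (fun A hA A' hA' =>
      hcol A (mem_filter.1 hA).1 A' (mem_filter.1 hA').1
        ((mem_filter.1 hA).2.trans (mem_filter.1 hA').2.symm)) hU hU'
      (mem_filter.2 ⟨hY, hj⟩) (mem_filter.2 ⟨hY', hj'⟩)
  have hch := fun j => chunk hN ℓ (S j) (hSlam j)
  choose D hD2 hD3 hD4 using hch
  have hDloc : ∀ j, ∀ β ∈ D j, ∃ U, β ⊆ loc a b L B U := by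
    intro j β hβ
    obtain ⟨X, hX, h1⟩ := hD2 j β hβ
    obtain ⟨U, hU, Y, hY, hj, rfl⟩ := (memS j X).1 hX
    exact ⟨U, fun e he => (mem_lin.1 (h1 he)).1⟩
  refine ⟨univ.biUnion D, ?_, ?_, ?_, ?_⟩
  · intro β hβ
    obtain ⟨j, -, hj⟩ := mem_biUnion.1 hβ
    obtain ⟨U, hU⟩ := hDloc j β hj
    exact fun e he => (mem_loc.1 (hU he)).1
  · intro W hW β hβ
    obtain ⟨j, -, hj⟩ := mem_biUnion.1 hβ
    obtain ⟨U, hU⟩ := hDloc j β hj
    exact loc_con hW hU
  · intro e
    have h1 : ((univ.biUnion D).filter fun β => e ∈ β) ⊆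
        (univ : Finset (Fin mo)).biUnion fun j => (D j).filter fun β => e ∈ β := by
      intro β hβ
      obtain ⟨h2, h3⟩ := mem_filter.1 hβ
      obtain ⟨j, hj, h4⟩ := mem_biUnion.1 h2
      exact mem_biUnion.2 ⟨j, hj, mem_filter.2 ⟨h4, h3⟩⟩
    calc ((univ.biUnion D).filter fun β => e ∈ β).card
        ≤ ((univ : Finset (Fin mo)).biUnion fun j => (D j).filter fun β => e ∈ β).card :=
          card_le_card h1
      _ ≤ (univ : Finset (Fin mo)).card * (ℓ + 1) :=
          card_biUnion_le_card_mul _ _ (ℓ + 1) fun j _ => hD3 j e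
      _ = mo * (ℓ + 1) := by rw [card_univ, Fintype.card_fin]
  · intro Y hY Q hQL _ hQY
    obtain ⟨j, hj⟩ : ∃ j, col Y = j := ⟨_, rfl⟩
    have hPY : ∀ x, x ∈ Y ↔ ∃ Z ∈ Q, x ∈ Z := by
      intro x
      rw [← hQY, mem_biUnion]
      rfl
    obtain ⟨R, hR⟩ : ∃ R : Finset (Finset V), R = (insert univ L).filter fun U =>
        (lin a b L B U Y ∩ btw a b B Y Q).Nonempty := ⟨_, rfl⟩
    have hcR : R.card ≤ Q.card := by
      rw [hR]
      exact card_regions hlam hQL hPY
    have hRL : ∀ U ∈ R, U ∈ insert univ L := by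
      intro U hU
      rw [hR] at hU
      exact (mem_filter.1 hU).1
    -- at a region which is met, all edges inside `Y` lie between the pieces
    have hsub : ∀ U ∈ R, lin a b L B U Y ⊆ btw a b B Y Q := by
      intro U hU e he
      rw [hR, mem_filter] at hU
      obtain ⟨-, e0, he0⟩ := hU
      obtain ⟨h1, h2⟩ := mem_inter.1 he0
      obtain ⟨-, k1, k2, -⟩ := mem_loc.1 (mem_lin.1 h1).1
      obtain ⟨h3, h4, h5⟩ := mem_lin.1 he
      obtain ⟨h6, h7, h8, h9⟩ := mem_loc.1 h3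
      refine mem_btw.2 ⟨h6, h4, h5, fun Z hZ h10 => ?_⟩
      have h11 := h9 Z (hQL hZ) h10.1 h10.2
      exact (mem_btw.1 h2).2.2.2 Z hZ ⟨h11 k1, h11 k2⟩
    have hex : ∀ U : Finset V, ∃ Bs : Finset (Finset E), U ∈ R → Bs ⊆ D j ∧
        (∀ β ∈ Bs, β ⊆ lin a b L B U Y) ∧ (∀ β ∈ Bs, ∀ γ ∈ Bs, β ≠ γ → Disjoint β γ) ∧
        (lin a b L B U Y \ Bs.biUnion id).card ≤ 2 * N ∧
        Bs.card * (N * 2 ^ ℓ) ≤ 2 * ℓ * (N * 2 ^ ℓ) + (lin a b L B U Y).card := by
      intro U
      by_cases hU : U ∈ R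
      · obtain ⟨Bs, h1, h2, h3, h4, h5⟩ := hD4 j _ ((memS j _).2 ⟨U, hRL U hU, Y, hY, hj, rfl⟩)
        exact ⟨Bs, fun _ => ⟨h1, h2, h3, h4, h5⟩⟩
      · exact ⟨∅, fun h => absurd h hU⟩
    choose F hF using hex
    have hlinD : ∀ U ∈ R, ∀ U' ∈ R, U ≠ U' →
        Disjoint (lin a b L B U Y) (lin a b L B U' Y) := by
      intro U hU U' hU' hne
      rw [disjoint_left]
      intro e he he'
      exact hne (loc_unique (hRL U hU) (hRL U' hU') (mem_lin.1 he).1 (mem_lin.1 he').1)
    refine ⟨R.biUnion F, ?_, ?_, ?_, ?_, ?_⟩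
    · intro β hβ
      obtain ⟨U, hU, h1⟩ := mem_biUnion.1 hβ
      exact mem_biUnion.2 ⟨j, mem_univ _, (hF U hU).1 h1⟩
    · intro β hβ γ hγ hne
      obtain ⟨U, hU, h1⟩ := mem_biUnion.1 hβ
      obtain ⟨U', hU', h2⟩ := mem_biUnion.1 hγ
      by_cases hUU : U = U'
      · subst hUU
        exact (hF U hU).2.2.1 β h1 γ h2 hne
      · exact ((hlinD U hU U' hU' hUU).mono_left ((hF U hU).2.1 β h1)).mono_right
          ((hF U' hU').2.1 γ h2)
    · intro β hβ
      obtain ⟨U, hU, h0⟩ := mem_biUnion.1 hβ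
      have h1 := ((hF U hU).2.1 β h0).trans (hsub U hU)
      refine ⟨fun e he => ?_, fun Z hZ => ?_⟩
      · obtain ⟨h2, h3, h4, -⟩ := mem_btw.1 (h1 he)
        exact mem_inter.2 ⟨h2, (mem_ins a b).2 ⟨h3, h4⟩⟩
      · rw [disjoint_left]
        intro e he he'
        exact (mem_btw.1 (h1 he)).2.2.2 Z hZ ((mem_ins a b).1 he')
    · have hcov : (B ∩ ins a b Y) \ (Q.biUnion (ins a b) ∪ (R.biUnion F).biUnion id) ⊆
          R.biUnion fun U => lin a b L B U Y \ (F U).biUnion id := by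
        intro e he
        rw [mem_sdiff, mem_union, not_or] at he
        obtain ⟨h1, h2, h3⟩ := he
        obtain ⟨h4, h5⟩ := mem_inter.1 h1
        obtain ⟨h6, h7⟩ := (mem_ins a b).1 h5
        have h8 : e ∈ btw a b B Y Q := mem_btw.2 ⟨h4, h6, h7, fun Z hZ h9 =>
          h2 (mem_biUnion.2 ⟨Z, hZ, (mem_ins a b).2 h9⟩)⟩
        obtain ⟨U, hU, h9⟩ := exists_loc (a := a) (b := b) hlam h4
        have h10 : e ∈ lin a b L B U Y := mem_lin.2 ⟨h9, h6, h7⟩
        have hUR : U ∈ R := by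
          rw [hR]
          exact mem_filter.2 ⟨hU, e, mem_inter.2 ⟨h10, h8⟩⟩
        refine mem_biUnion.2 ⟨U, hUR, mem_sdiff.2 ⟨h10, fun h11 => h3 ?_⟩⟩
        obtain ⟨β, hβ, h12⟩ := mem_biUnion.1 h11
        exact mem_biUnion.2 ⟨β, mem_biUnion.2 ⟨U, hUR, hβ⟩, h12⟩
      calc ((B ∩ ins a b Y) \ (Q.biUnion (ins a b) ∪ (R.biUnion F).biUnion id)).card
          ≤ (R.biUnion fun U => lin a b L B U Y \ (F U).biUnion id).card := card_le_card hcov
        _ ≤ R.card * (2 * N) := card_biUnion_le_card_mul _ _ (2 * N) fun U hU =>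
            (hF U hU).2.2.2.1
        _ ≤ 2 * N * Q.card := by
            rw [mul_comm]
            exact Nat.mul_le_mul_left _ hcR
    · have h1 : (R.biUnion F).card ≤ ∑ U ∈ R, (F U).card := card_biUnion_le
      have h2 : ∑ U ∈ R, (F U).card * (N * 2 ^ ℓ) ≤
          ∑ U ∈ R, (2 * ℓ * (N * 2 ^ ℓ) + (lin a b L B U Y).card) :=
        sum_le_sum fun U hU => (hF U hU).2.2.2.2
      rw [← sum_mul, sum_add_distrib, sum_const, smul_eq_mul] at h2
      have h3 : ∑ U ∈ R, (lin a b L B U Y).card ≤ (btw a b B Y Q).card := by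
        rw [← card_biUnion]
        · refine card_le_card fun e he => ?_
          obtain ⟨U, hU, h4⟩ := mem_biUnion.1 he
          exact hsub U hU h4
        · intro U hU U' hU' hne
          exact hlinD U hU U' hU' hne
      have h4 := Nat.mul_le_mul_right (N * 2 ^ ℓ) h1
      have h5 := Nat.mul_le_mul_right (2 * ℓ * (N * 2 ^ ℓ)) hcR
      have h6 : Q.card * (2 * ℓ * (N * 2 ^ ℓ)) = 2 * ℓ * (N * 2 ^ ℓ) * Q.card := Nat.mul_comm _ _
      omega

end Pool.Agent.Lib.MP_21a058_co.Lim5
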