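import Pool.Agent.Lib.MP_21a058_co.Lim.Sel
import Pool.Agent.Lib.MP_21a058_co.Lim4.Col
import Pool.Agent.Lib.MP_21a058_co.Lim4.NearP
import Pool.Agent.Lib.MP_21a058_co.Lim5.Query
import Pool.Agent.Lib.MP_21a058_co.Lim5.Rows

/-! MP_21a058_co, the limit theorem with polynomial constants: the selection of one round. -/

set_option autoImplicit false

namespace Pool.Agent.Lib.MP_21a058_co.Lim5

open Finset
open Pool.Agent.Lib.MP_21a058_co.P Pool.Agent.Lib.MP_21a058_co.Every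
open Pool.Agent.Lib.MP_21a058_co.Swap Pool.Agent.Lib.MP_21a058_co.Iter
open Pool.Agent.Lib.MP_21a058_co.Lim (pieces_fam dl_compl sel_num SelAt query_btw mem_btq mem_btw)
open Pool.Agent.Lib.MP_21a058_co.Lim4 (near_pieces_of atoms_col)

/-- **the selection of one round** -/
theorem selAt {V E : Type} [Fintype V] [DecidableEq V] [Fintype E] [DecidableEq E]
    (a b : E → V) (r : V) {w tau t lam u p s q c g h C9 ℓ K E2 : ℕ}
    (ht : 0 < t) (htw : t < w) (hst : s + c + (q + c) = t) (hh : 48 * ((p * p + 1) * (ℓ + 1)) ≤ h)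
    (h9 : 2 * ((p * p + 1) * (ℓ + 1)) * t ≤ C9 * h) (hc : 16 + 4 * C9 ≤ c + 1) (hch : c + 1 ≤ g)
    (hL : 0 < h) (htl : t ≤ h * 2 ^ ℓ) (hp : (p + 1) * (lam + 3 * u) < 2 * tau * p)
    (hnum : 2 * p * K * (2 * (2 * h) + g + 2 * h * (2 * ℓ + 1)) ≤ E2 * (w - t))
    (P : Fin w → Finset E) (hP : Trees a b P) (N : Fin tau → Finset E) (hN : Trees a b N)
    (hNP : Disjoint (un N) (un P))
    (hlam : ∀ Y : Finset V, Y.Nonempty → Y ≠ univ → lam ≤ (cut a b Y \ un P).card) :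
    SelAt a b r K E2 s q (s + c) t u lam P := by
  classical
  obtain ⟨Fm, B, hB, hBP, hBT, hnear⟩ :=
    near_pieces_of a b r P N hN hNP hlam hp fun S h1 h2 h3 =>
      pieces_fam a b ⟨r⟩ ht htw.le P hP S h1 h2 h3
  -- colours of the near sets
  obtain ⟨col, hcol⟩ := atoms_col a b r (un P)ᶜ N
    (by
      intro i e he
      rw [mem_compl]
      exact fun h => disjoint_left.1 hNP (mem_un.2 ⟨i, he⟩) h)
    hN.2 (fun i => sel_conn a b (hN.1 i).1) lam u p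
    (by
      intro X hX hXu
      rw [dl_compl]
      exact hlam X hX hXu)
    hp
  -- the block rows
  obtain ⟨R, hRB, hRcon, hRmo, hRq⟩ := exists_rows a b Fm.lam (un B) ℓ hL
    (univ.filter fun Y : Finset V => Y.Nonempty ∧ r ∉ Y ∧ (cut a b Y \ un P).card ≤ lam + u) col
    (by
      intro X hX Y hY hXY
      simp only [mem_filter, mem_univ, true_and] at hX hY
      refine hcol X Y hX.1 hX.2.1 ?_ hY.1 hY.2.1 ?_ hXY
      · rw [dl_compl]
        exact hX.2.2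
      · rw [dl_compl]
        exact hY.2.2)
  -- the rounding
  obtain ⟨X, C, D, hXB, hC, hD, hCX, hDX, hrow, hblk⟩ := Duo.sel4 a b hst hh h9 hc B hB
    Fm.F Fm.ne Fm.lam (fun Y hY i => (hBT i).2 Y hY) R hRB hRcon hRmo
  refine ⟨C, D, hC, hD, (hCX.trans hXB).trans hBP, (hDX.trans sdiff_subset).trans hBP, ?_, ?_⟩
  · rw [disjoint_left]
    intro e h1 h2
    exact (mem_sdiff.1 (hDX h2)).2 (hCX h1)
  intro Y hY hrY hYn
  obtain ⟨Q, hQ1, hQ2, hQY, hQ4⟩ := hnear Y hY hrY hYn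
  obtain ⟨Bs, hBs0, hBs1, hBs2, hBs3, hBs4⟩ := hRq Y (by simp [hY, hrY, hYn]) Q
    (fun A hA => (hQ1 A hA).1) hQ2 hQY
  have hbt : (Lim.btw a b (un B) Y Q).card ≤ t * Q.card := by
    refine le_trans (card_le_card fun e he => ?_)
      (query_btw a b B hB hQ2 hQY (fun Z hZ i => (hBT i).2 Z (hQ1 Z hZ).1))
    obtain ⟨k1, k2, k3, k4⟩ := mem_btw.1 he
    exact mem_inter.2 ⟨k1, (mem_btq a b).2 ⟨⟨k2, k3⟩, k4⟩⟩
  have hnb : Bs.card ≤ (2 * ℓ + 1) * Q.card := by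
    have k0 : 0 < h * 2 ^ ℓ := Nat.mul_pos hL (Nat.pos_of_ne_zero (by positivity))
    have k1 : t * Q.card ≤ h * 2 ^ ℓ * Q.card := Nat.mul_le_mul_right _ htl
    refine Nat.le_of_mul_le_mul_right ?_ k0
    calc Bs.card * (h * 2 ^ ℓ) ≤ 2 * ℓ * (h * 2 ^ ℓ) * Q.card + h * 2 ^ ℓ * Q.card :=
          hBs4.trans (Nat.add_le_add_left (hbt.trans k1) _)
      _ = (2 * ℓ + 1) * Q.card * (h * 2 ^ ℓ) := by ring
  have hq := query a b B hB X Y Q hQ2 hQY (fun Z hZ i => (hBT i).2 Z (hQ1 Z hZ).1) (s + c) g h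
    (2 * h) (2 * ℓ + 1) (by omega)
    (by
      intro Z hZ
      refine (hrow Z (hQ1 Z hZ).1).trans ?_
      exact Nat.add_le_add_left (Nat.mul_le_mul_right _ hch) _)
    Bs hBs1 hBs2 hnb hBs3 (fun β hβ => hblk β (hBs0 hβ))
  have h1 : (un C ∩ cut a b Y).card ≤ (X ∩ cut a b Y).card :=
    card_le_card (inter_subset_inter_right hCX)
  have h2 : (un B ∩ cut a b Y).card ≤ (un P ∩ cut a b Y).card :=
    card_le_card (inter_subset_inter_right hBP)
  refine sel_num (A0 := 2 * p) (L := 1) (Z := 2 * (2 * h) + g + 2 * h * (2 * ℓ + 1)) (Qc := Q.card)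
    Nat.one_pos (by omega : 0 < w - t)
    (by rw [Nat.mul_one]; exact hnum) hQ4 h2 ?_
  rw [Nat.one_mul, Nat.one_mul]
  exact (Nat.mul_le_mul_left _ h1).trans hq

end Pool.Agent.Lib.MP_21a058_co.Lim5
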